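import Pool.Agent.Helper39.LpProj

/-!
# Monotonicity in `p` of projection volumes of `l_p` balls

For all `1 ≤ k ≤ n` and every `k`-dimensional subspace `H` of `ℝ^n` the normalised volume
`vol_k (Proj_H (B_p^n)) / vol_k (B_p^k)` is a non-decreasing function of `p` on `[1, ∞)`.
-/

open MeasureTheory

namespace Pool.Agent.Results.MP_05aced_gt.ProjMonotone

/-- The closed unit ball `B_p^m` of the `l_p` norm on Euclidean `m`-space. -/
def lpBall (m : ℕ) (p : ℝ) : Set (EuclideanSpace ℝ (Fin m)) := {x | ∑ i, |x i| ^ p ≤ 1}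

/-- The Lebesgue measure of a subset of a finite-dimensional Euclidean space, as a real number. -/
noncomputable def vol {V : Type*} [NormedAddCommGroup V] [InnerProductSpace ℝ V]
    [FiniteDimensional ℝ V] [MeasurableSpace V] [BorelSpace V] (S : Set V) : ℝ := (volume S).toReal

/-- The orthogonal projection of a set `S` to the linear subspace `H`, as a subset of `H`. -/
noncomputable def shadow {V : Type*} [NormedAddCommGroup V] [InnerProductSpace ℝ V]
    [FiniteDimensional ℝ V] (H : Submodule ℝ V) (S : Set V) : Set H :=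
  H.orthogonalProjectionOnto '' S

/-- The normalised projection volume `R_H(p) = vol_k (Proj_H (B_p^n)) / vol_k (B_p^k)`. -/
noncomputable def projRatio {n : ℕ} (k : ℕ) (H : Submodule ℝ (EuclideanSpace ℝ (Fin n)))
    (p : ℝ) : ℝ :=
  vol (shadow H (lpBall n p)) / vol (lpBall k p)

/-- For every `k`-dimensional linear subspace `H` of Euclidean `n`-space (`k ≥ 1`), the function
`p ↦ vol_k (Proj_H (B_p^n)) / vol_k (B_p^k)` is non-decreasing on `[1, ∞)`. -/
theorem result (n k : ℕ) (hk : 1 ≤ k) (H : Submodule ℝ (EuclideanSpace ℝ (Fin n)))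
    (hH : Module.finrank ℝ H = k) :
    MonotoneOn (projRatio k H) (Set.Ici 1) :=
  Pool.Agent.Helper39.LpProj.main_real n k hk H hH

end Pool.Agent.Results.MP_05aced_gt.ProjMonotone
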